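import Pool.Agent.W787.PS.StmB

/-!
Project PS: disc charts.
-/

set_option autoImplicit false

open MeasureTheory Set Metric Filter Topology
open scoped ContDiff

noncomputable section

namespace Pool.Agent.W787.PS

namespace DiscAux

/-- the affine map -/
def aff (z0 : ℂ) (r : ℝ) (z : ℂ) : ℂ := z0 + r • z

theorem aff_cont (z0 : ℂ) (r : ℝ) : Continuous (aff z0 r) := by
  unfold aff
  fun_prop

theorem aff_smooth (z0 : ℂ) (r : ℝ) : ContDiff ℝ ∞ (aff z0 r) := by
  unfold aff
  fun_prop

theorem aff_inj {z0 : ℂ} {r : ℝ} (hr : 0 < r) : Function.Injective (aff z0 r) := by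
  intro a b h
  unfold aff at h
  have h1 := add_left_cancel h
  exact smul_right_injective ℂ hr.ne' h1

/-- the inverse -/
def ainv (z0 : ℂ) (r : ℝ) (w : ℂ) : ℂ := r⁻¹ • (w - z0)

theorem ainv_cont (z0 : ℂ) (r : ℝ) : Continuous (ainv z0 r) := by
  unfold ainv
  fun_prop

theorem ainv_smooth (z0 : ℂ) (r : ℝ) : ContDiff ℝ ∞ (ainv z0 r) := by
  unfold ainv
  fun_prop

theorem ainv_aff {z0 : ℂ} {r : ℝ} (hr : 0 < r) (z : ℂ) : ainv z0 r (aff z0 r z) = z := by
  unfold ainv aff
  rw [add_sub_cancel_left, smul_smul, inv_mul_cancel₀ hr.ne', one_smul]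

theorem aff_ainv {z0 : ℂ} {r : ℝ} (hr : 0 < r) (w : ℂ) : aff z0 r (ainv z0 r w) = w := by
  unfold ainv aff
  rw [smul_smul, mul_inv_cancel₀ hr.ne', one_smul, add_sub_cancel]

theorem aff_image {z0 : ℂ} {r : ℝ} (hr : 0 < r) (A : Set ℂ) :
    aff z0 r '' A = ainv z0 r ⁻¹' A := by
  ext w
  constructor
  · rintro ⟨z, hz, rfl⟩
    rw [mem_preimage, ainv_aff hr]
    exact hz
  · intro h
    exact ⟨ainv z0 r w, h, aff_ainv hr w⟩

theorem aff_open {z0 : ℂ} {r : ℝ} (hr : 0 < r) {U : Set ℂ} (hU : IsOpen U) :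
    IsOpen (aff z0 r '' U) := by
  rw [aff_image hr]
  exact hU.preimage (ainv_cont z0 r)

theorem aff_meas {z0 : ℂ} {r : ℝ} (hr : 0 < r) {U : Set ℂ} (hU : MeasurableSet U) :
    MeasurableSet (aff z0 r '' U) := by
  rw [aff_image hr]
  exact (ainv_cont z0 r).measurable hU

theorem aff_ball {z0 : ℂ} {r : ℝ} (hr : 0 < r) {z : ℂ} (hz : z ∈ ball (0 : ℂ) 8) :
    aff z0 r z ∈ ball z0 (8 * r) := by
  rw [mem_ball_iff_norm]
  unfold aff
  rw [add_sub_cancel_left, norm_smul, Real.norm_eq_abs, abs_of_pos hr]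
  rw [mem_ball_zero_iff] at hz
  nlinarith

/-- change of variables -/
theorem int_aff {z0 : ℂ} {r : ℝ} (hr : 0 < r) (g : ℂ → ℝ) (A : Set ℂ) (hA : MeasurableSet A) :
    (IntegrableOn g (aff z0 r '' A) ↔ IntegrableOn (fun z => g (aff z0 r z) * r ^ 2) A) ∧
      ∫ w in aff z0 r '' A, g w = ∫ z in A, g (aff z0 r z) * r ^ 2 := by
  have hm := aff_meas (z0 := z0) hr hA
  set h : ℂ → ℝ := (aff z0 r '' A).indicator g with hh
  have e1 : ∀ z, h (z0 + r • z) = A.indicator (fun z => g (aff z0 r z)) z := by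
    intro z
    by_cases hz : z ∈ A
    · rw [indicator_of_mem hz, hh, indicator_of_mem]
      · rfl
      · exact ⟨z, hz, rfl⟩
    · rw [indicator_of_notMem hz, hh, indicator_of_notMem]
      rintro ⟨z', hz', h1⟩
      exact hz (aff_inj hr h1 ▸ hz')
  have hr2 : (r ^ 2 : ℝ) ≠ 0 := by positivity
  constructor
  · rw [← integrable_indicator_iff hm, ← hh]
    have h1 : Integrable h ↔ Integrable fun z => h (z0 + r • z) := by
      rw [integrable_comp_smul_iff (μ := (volume : Measure ℂ)) (fun z => h (z0 + z)) hr.ne']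
      constructor
      · intro h2
        exact h2.comp_add_left z0
      · intro h2
        have h3 := h2.comp_add_left (-z0)
        simpa using h3
    rw [h1, funext e1, integrable_indicator_iff hA]
    constructor
    · intro h2
      exact h2.mul_const _
    · intro h2
      have h3 := h2.mul_const (r ^ 2)⁻¹
      refine h3.congr (Filter.Eventually.of_forall fun z => ?_)
      simp only
      rw [mul_assoc, mul_inv_cancel₀ hr2, mul_one]
  · rw [← integral_indicator hm, ← hh, integral_mul_const, ← integral_indicator hA,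
      ← funext e1]
    have h1 := Measure.integral_comp_smul (μ := (volume : Measure ℂ)) (fun z => h (z0 + z)) r
    rw [h1, integral_add_left_eq_self h z0]
    simp only [Complex.finrank_real_complex, smul_eq_mul]
    rw [abs_of_pos (by positivity)]
    field_simp

theorem fderiv_aff {f : ℂ → ℝ} {z0 : ℂ} {r : ℝ} {z : ℂ} (hf : DifferentiableAt ℝ f (aff z0 r z))
    (w : ℂ) : fderiv ℝ (f ∘ aff z0 r) z w = r * fderiv ℝ f (aff z0 r z) w := by
  have h2 : HasFDerivAt (aff z0 r) (r • ContinuousLinearMap.id ℝ ℂ) z :=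
    ((hasFDerivAt_id z).const_smul r).const_add z0
  have h3 := hf.hasFDerivAt.comp z h2
  rw [h3.fderiv]
  simp

end DiscAux

open DiscAux

theorem disc (h1 : S_GIP) (h2 : S_CHV) (_h3 : S_SMO) : S_DISC := by
  intro M _ _ _ _ _ X x η hη
  obtain ⟨i, hi⟩ := X.cover x
  set e := X.chart i with he
  set z0 := e x with hz0
  have hz0t : z0 ∈ e.target := e.map_source hi
  obtain ⟨ε, hε, hball⟩ := Metric.isOpen_iff.1 e.open_target z0 hz0t
  set r0 := ε / 16 with hr0
  have hr0p : 0 < r0 := by positivity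
  have hcb : closedBall z0 (8 * r0) ⊆ e.target := by
    refine (closedBall_subset_ball ?_).trans hball
    rw [hr0]
    linarith
  have hdc : ContinuousOn (X.dens i) (closedBall z0 (8 * r0)) :=
    (X.dens_smooth i).continuousOn.mono hcb
  have hK : IsCompact (closedBall z0 (8 * r0)) := isCompact_closedBall _ _
  have hne : (closedBall z0 (8 * r0)).Nonempty := ⟨z0, mem_closedBall_self (by positivity)⟩
  obtain ⟨zm, hzm, hmin⟩ := hK.exists_isMinOn hne hdc
  obtain ⟨zM, hzM, hmax⟩ := hK.exists_isMaxOn hne hdc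
  set c0 := X.dens i zm with hc0
  set K := X.dens i zM with hKd
  have hc0p : 0 < c0 := X.dens_pos i zm (hcb hzm)
  have hKp : 0 < K := X.dens_pos i zM (hcb hzM)
  set r := min (min r0 1) (η / K) with hr
  have hrp : 0 < r := by positivity
  have hr1 : r ≤ r0 := (min_le_left _ _).trans (min_le_left _ _)
  have hr2 : r ≤ 1 := (min_le_left _ _).trans (min_le_right _ _)
  have hr3 : r ≤ η / K := min_le_right _ _
  have hin : ∀ z ∈ ball (0 : ℂ) 8, aff z0 r z ∈ closedBall z0 (8 * r0) := by
    intro z hz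
    have := aff_ball (z0 := z0) hrp hz
    rw [mem_ball] at this
    rw [mem_closedBall]
    nlinarith
  have htar : ∀ z ∈ ball (0 : ℂ) 8, aff z0 r z ∈ e.target := fun z hz => hcb (hin z hz)
  have hsub : MapsTo (aff z0 r) (ball 0 8) e.target := htar
  refine ⟨fun z => e.symm (aff z0 r z), fun z => r ^ 2 * X.dens i (aff z0 r z), ?_, ?_, ?_⟩
  swap
  · change e.symm (aff z0 r 0) = x
    unfold aff
    rw [smul_zero, add_zero]
    exact e.left_inv hi
  swap
  · intro z hz
    have h4 : X.dens i (aff z0 r z) ≤ K := hmax (hin z hz)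
    have h5 : r ^ 2 ≤ η / K := by nlinarith
    calc r ^ 2 * X.dens i (aff z0 r z) ≤ r ^ 2 * K := mul_le_mul_of_nonneg_left h4 (by positivity)
      _ ≤ η / K * K := mul_le_mul_of_nonneg_right h5 hKp.le
      _ = η := div_mul_cancel₀ _ hKp.ne'
  have himg : ∀ A : Set ℂ, (fun z => e.symm (aff z0 r z)) '' A = e.symm '' (aff z0 r '' A) :=
    fun A => by rw [image_image]
  have hcont : ContinuousOn (fun z => e.symm (aff z0 r z)) (ball 0 8) :=
    e.symm.continuousOn.comp (aff_cont z0 r).continuousOn hsub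
  have hinj : InjOn (fun z => e.symm (aff z0 r z)) (ball 0 8) := by
    intro a ha b hb hab
    exact aff_inj hrp (e.symm.injOn (htar a ha) (htar b hb) hab)
  refine ⟨hinj, hcont, ?_, ?_, ?_, ?_, ?_, ?_, ?_⟩
  · intro U hU hU8
    rw [himg]
    apply e.symm.isOpen_image_of_subset_source (aff_open hrp hU)
    rintro _ ⟨z, hz, rfl⟩
    exact htar z (hU8 hz)
  · exact contDiffOn_const.mul ((X.dens_smooth i).comp (aff_smooth z0 r).contDiffOn hsub)
  · refine ⟨r ^ 2 * c0, r ^ 2 * K, by positivity, fun z hz => ⟨?_, ?_⟩⟩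
    · exact mul_le_mul_of_nonneg_left (hmin (hin z hz)) (by positivity)
    · exact mul_le_mul_of_nonneg_left (hmax (hin z hz)) (by positivity)
  · intro u hu
    exact (hu i).comp (aff_smooth z0 r).contDiffOn hsub
  · intro f A hA hA8
    have hAt : aff z0 r '' A ⊆ e.target := by
      rintro _ ⟨z, hz, rfl⟩
      exact htar z (hA8 hz)
    have c1 := h2 M X i f (aff z0 r '' A) (aff_meas hrp hA) hAt
    have c2 := int_aff (z0 := z0) hrp (fun z => f (e.symm z) * X.dens i z) A hA
    have c3 : (fun z => f (e.symm (aff z0 r z)) * X.dens i (aff z0 r z) * r ^ 2) =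
        fun z => f (e.symm (aff z0 r z)) * (r ^ 2 * X.dens i (aff z0 r z)) := by
      funext z
      ring
    rw [c3] at c2
    rw [himg]
    exact ⟨c1.1.trans c2.1, c1.2.trans c2.2⟩
  · intro u v hu hv z hz
    have c1 := (h1 M X u v hu hv).2 i (e.symm (aff z0 r z)) (e.map_target (htar z hz))
    rw [← he, e.right_inv (htar z hz)] at c1
    have hdu : DifferentiableAt ℝ (u ∘ e.symm) (aff z0 r z) :=
      ((hu i).contDiffAt (e.open_target.mem_nhds (htar z hz))).differentiableAt (by norm_cast)
    have hdv : DifferentiableAt ℝ (v ∘ e.symm) (aff z0 r z) :=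
      ((hv i).contDiffAt (e.open_target.mem_nhds (htar z hz))).differentiableAt (by norm_cast)
    have c2 : gdot (u ∘ fun z => e.symm (aff z0 r z)) (v ∘ fun z => e.symm (aff z0 r z)) z =
        r ^ 2 * gdot (u ∘ e.symm) (v ∘ e.symm) (aff z0 r z) := by
      have d1 : (u ∘ fun z => e.symm (aff z0 r z)) = (u ∘ e.symm) ∘ aff z0 r := rfl
      have d2 : (v ∘ fun z => e.symm (aff z0 r z)) = (v ∘ e.symm) ∘ aff z0 r := rfl
      rw [d1, d2]
      unfold gdot
      rw [fderiv_aff hdu, fderiv_aff hdv, fderiv_aff hdu, fderiv_aff hdv]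
      ring
    rw [c2, ← c1]
    ring
  · intro φ hφ hs
    have hcφ : IsCompact (tsupport φ) :=
      Metric.isCompact_of_isClosed_isBounded (isClosed_tsupport φ)
        (Metric.isBounded_ball.subset hs)
    have hKc : IsCompact ((fun z => e.symm (aff z0 r z)) '' tsupport φ) :=
      hcφ.image_of_continuousOn (hcont.mono hs)
    classical
    let Φ : M → ℝ := fun y => if y ∈ e.source then φ (ainv z0 r (e y)) else 0
    have hΦ0 : ∀ y, y ∉ (fun z => e.symm (aff z0 r z)) '' tsupport φ → Φ y = 0 := by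
      intro y hy
      change (if y ∈ e.source then φ (ainv z0 r (e y)) else 0) = 0
      split_ifs with hys
      · by_contra hne
        apply hy
        refine ⟨ainv z0 r (e y), subset_tsupport φ hne, ?_⟩
        simp only
        rw [aff_ainv hrp]
        exact e.left_inv hys
      · rfl
    refine ⟨Φ, ?_, ?_, hΦ0⟩
    · intro j p hp
      apply ContDiffAt.contDiffWithinAt
      by_cases hy : (X.chart j).symm p ∈ e.source
      · have hp' : p ∈ ((X.chart j).symm.trans e).source := by
          rw [OpenPartialHomeomorph.trans_source]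
          exact ⟨hp, hy⟩
        have hopen : IsOpen ((X.chart j).symm.trans e).source :=
          ((X.chart j).symm.trans e).open_source
        have g1 : ContDiffAt ℝ ∞ (e ∘ (X.chart j).symm) p :=
          (X.trans_smooth j i).contDiffAt (hopen.mem_nhds hp')
        have g2 : ContDiffAt ℝ ∞ (fun q => φ (ainv z0 r (e ((X.chart j).symm q)))) p :=
          (hφ.contDiffAt.comp p ((ainv_smooth z0 r).contDiffAt.comp p g1))
        refine g2.congr_of_eventuallyEq ?_
        filter_upwards [hopen.mem_nhds hp'] with q hq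
        rw [OpenPartialHomeomorph.trans_source] at hq
        exact if_pos hq.2
      · have hy' : (X.chart j).symm p ∉ (fun z => e.symm (aff z0 r z)) '' tsupport φ := by
          rintro ⟨z, hz, hzy⟩
          apply hy
          rw [← hzy]
          exact e.map_target (htar z (hs hz))
        have hcj : ContinuousAt (X.chart j).symm p :=
          (X.chart j).symm.continuousAt hp
        have hev : ∀ᶠ q in 𝓝 p, (X.chart j).symm q ∉ (fun z => e.symm (aff z0 r z)) '' tsupport φ :=
          hcj.eventually (hKc.isClosed.isOpen_compl.mem_nhds hy')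
        have g2 : ContDiffAt ℝ ∞ (fun _ : ℂ => (0 : ℝ)) p := contDiffAt_const
        refine g2.congr_of_eventuallyEq ?_
        filter_upwards [hev] with q hq
        exact hΦ0 _ hq
    · intro z hz
      change (if e.symm (aff z0 r z) ∈ e.source then
        φ (ainv z0 r (e (e.symm (aff z0 r z)))) else 0) = φ z
      rw [if_pos (e.map_target (htar z hz)), e.right_inv (htar z hz), ainv_aff hrp]

end Pool.Agent.W787.PS
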